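import Pool.Agent.Q182.XU.WNI

/-! # Project XU (helper113): stability near the clique law (helper182) -/

set_option autoImplicit false

namespace Pool.Agent.Q182.XU

open Finset Pool.Agent.Q54.EM Pool.Agent.Q113.XU Pool.Agent.Q113.XM Pool.Agent.W593.IR

section

variable {ι : Type} [Fintype ι]

lemma EE_smul (q x : ι → ℝ) (c : ℝ) (n : ℕ) : ∀ f : ℝ → ℝ,
    EE (fun i => c * q i) x n f = c ^ n * EE q x n f := by
  induction n with
  | zero => intro f; simp [EE]
  | succ n ih =>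
    intro f
    show ∑ i, (c * q i) * EE (fun i => c * q i) x n (fun t => f (t + x i))
      = c ^ (n + 1) * ∑ i, q i * EE q x n (fun t => f (t + x i))
    rw [mul_sum]
    refine sum_congr rfl fun i _ => ?_
    rw [ih]
    ring

lemma UP_scale (q x : ι → ℝ) (k : ℕ) (hk : 1 ≤ k) :
    UP q (fun i => x i / k) k 1 = EE q x k (fun s => if (k : ℝ) ≤ s then 1 else 0) := by
  have hk0 : (0 : ℝ) < k := by exact_mod_cast hk
  unfold UP
  rw [Pool.Agent.Q257.EM.tup, Pool.Agent.Q257.EM.tup]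
  unfold TE
  refine sum_congr rfl fun v _ => ?_
  congr 1
  simp only []
  rw [← sum_div]
  have hiff : (1 : ℝ) ≤ (∑ i, x (v i)) / k ↔ (k : ℝ) ≤ ∑ i, x (v i) := by
    rw [le_div_iff₀ hk0, one_mul]
  by_cases h : (k : ℝ) ≤ ∑ i, x (v i)
  · rw [if_pos h, if_pos (hiff.2 h)]
  · rw [if_neg h, if_neg fun h' => h (hiff.1 h')]

end

/-- the real number part of the lower bound -/
lemma lcs_real {k : ℕ} {r a MA mL ME e F T2 T3 U κ' g mA δ : ℝ} (hk : 2 ≤ k)
    (ha : r / 2 ≤ a) (ha1 : a ≤ 1) (hMA0 : r / 2 ≤ MA) (hMA1 : MA ≤ 1) (r0 : 0 < r)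
    (hr : r = mL + MA + ME) (mL0 : 0 ≤ mL) (ME0 : 0 ≤ ME) (_e0 : 0 ≤ e)
    (hmA : MA = a * mA) (hF : F ≤ mA ^ k - κ' * |mA - 1|) (κ0 : 0 < κ')
    (hU : U ≤ a ^ k * F + T2 + T3) (hT2 : T2 ≤ k * (a ^ (k - 1) * ME - g / 2 * e))
    (hT3 : T3 ≤ k * (g / 4 * e)) (hME : ME ≤ δ) (hδ : (k : ℝ) ^ 2 * δ ≤ 1 / 2 * ((r / 2) ^ k * κ')) :
    1 / 2 * ((r / 2) ^ k * κ') * |mA - 1| + k * (r / 2) ^ (k - 1) * mL + k * (g / 4) * e
      ≤ r ^ k - U := by
  have hk0 : (0 : ℝ) < k := by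
    have : 0 < k := by omega
    exact_mod_cast this
  have a0 : 0 ≤ a := by linarith
  have MA0 : 0 ≤ MA := by linarith
  have h1 : MA ^ k + k * MA ^ (k - 1) * (mL + ME) ≤ r ^ k := by
    have h2 : r = MA + (mL + ME) := by linarith
    rcases MA0.eq_or_lt with h | h
    · linarith
    · have h3 : 1 + (k : ℝ) * ((mL + ME) / MA) ≤ (1 + (mL + ME) / MA) ^ k :=
        one_add_mul_le_pow (by
          have : 0 ≤ (mL + ME) / MA := by positivity
          linarith) k
      have h4 : r ^ k = MA ^ k * (1 + (mL + ME) / MA) ^ k := by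
        rw [← mul_pow, h2]
        congr 1
        field_simp
      have h5 : MA ^ k = MA ^ (k - 1) * MA := by
        rw [← pow_succ]
        congr 1
        omega
      rw [h4]
      calc MA ^ k + k * MA ^ (k - 1) * (mL + ME)
          = MA ^ k * (1 + (k : ℝ) * ((mL + ME) / MA)) := by
            rw [h5]
            field_simp
        _ ≤ _ := mul_le_mul_of_nonneg_left h3 (by positivity)
  have h6 : |MA ^ (k - 1) - a ^ (k - 1)| ≤ k * |mA - 1| := by
    have h7 := abs_pow_sub_pow_le MA a (k - 1)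
    have h8 : |MA - a| ≤ |mA - 1| := by
      have e1 : MA - a = a * (mA - 1) := by rw [hmA]; ring
      rw [e1, abs_mul, abs_of_nonneg a0]
      exact mul_le_of_le_one_left (abs_nonneg _) ha1
    have h9 : max |MA| |a| ^ (k - 1 - 1) ≤ 1 := by
      apply pow_le_one₀ (by positivity)
      rw [abs_of_nonneg MA0, abs_of_nonneg a0]
      exact max_le hMA1 ha1
    have h10 : ((k - 1 : ℕ) : ℝ) ≤ k := by
      have : k - 1 ≤ k := by omega
      exact_mod_cast this
    calc |MA ^ (k - 1) - a ^ (k - 1)|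
        ≤ |MA - a| * ((k - 1 : ℕ) : ℝ) * max |MA| |a| ^ (k - 1 - 1) := h7
      _ ≤ |mA - 1| * k * 1 := by gcongr
      _ = k * |mA - 1| := by ring
  have h11 : -(k * (k * |mA - 1|) * δ) ≤ k * (MA ^ (k - 1) - a ^ (k - 1)) * ME := by
    have h12 : |k * (MA ^ (k - 1) - a ^ (k - 1)) * ME| ≤ k * (k * |mA - 1|) * δ := by
      rw [abs_mul, abs_mul, abs_of_pos hk0, abs_of_nonneg ME0]
      gcongr
    have := (abs_le.1 h12).1
    linarith
  have h13 : a ^ k * F ≤ MA ^ k - a ^ k * (κ' * |mA - 1|) := by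
    rw [hmA, mul_pow, ← mul_sub]
    exact mul_le_mul_of_nonneg_left hF (pow_nonneg a0 _)
  have h14 : (r / 2) ^ k * (κ' * |mA - 1|) ≤ a ^ k * (κ' * |mA - 1|) := by
    apply mul_le_mul_of_nonneg_right _ (by positivity)
    exact pow_le_pow_left₀ (by linarith) ha k
  have h15 : (k : ℝ) * (r / 2) ^ (k - 1) * mL ≤ k * MA ^ (k - 1) * mL := by
    apply mul_le_mul_of_nonneg_right _ mL0
    apply mul_le_mul_of_nonneg_left _ hk0.le
    exact pow_le_pow_left₀ (by linarith) hMA0 _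
  have h16 : (k : ℝ) * (k * |mA - 1|) * δ ≤ 1 / 2 * ((r / 2) ^ k * κ') * |mA - 1| := by
    have := mul_le_mul_of_nonneg_right hδ (abs_nonneg (mA - 1))
    linarith
  linarith

lemma lcs_hgr {k : ℕ} {r g δ : ℝ} (hδ : δ = 2 * r ^ (k - 1) - 1) (g0 : 0 < g)
    (g2 : g * (2 * (k + 1)) ≤ δ) (hr1p : r ^ (k - 1) ≤ 1) :
    1 + g ≤ (2 - k * g) * r ^ (k - 1) := by
  have h1 : k * g * r ^ (k - 1) ≤ k * g := mul_le_of_le_one_right (by positivity) hr1p
  have h2 : 0 ≤ g * ((k : ℝ) + 1) := by positivity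
  have h3 : g * (2 * ((k : ℝ) + 1)) = 2 * (g * (k + 1)) := by ring
  have h4 : g * ((k : ℝ) + 1) = k * g + g := by ring
  have h5 : (2 - k * g) * r ^ (k - 1) = 2 * r ^ (k - 1) - k * g * r ^ (k - 1) := by ring
  rw [h5]
  linarith

lemma lcs_u {κ2 D x y z : ℝ} (κ20 : 0 < κ2) (x0 : 0 ≤ x) (y0 : 0 ≤ y) (z0 : 0 ≤ z)
    (h : κ2 * (x + y + z) ≤ D) : x ≤ D / κ2 ∧ y ≤ D / κ2 ∧ z ≤ D / κ2 := by
  have h1 := mul_nonneg κ20.le x0
  have h2 := mul_nonneg κ20.le y0
  have h3 := mul_nonneg κ20.le z0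
  have h4 : κ2 * (x + y + z) = κ2 * x + κ2 * y + κ2 * z := by ring
  rw [h4] at h
  refine ⟨?_, ?_, ?_⟩ <;> rw [le_div_iff₀ κ20, mul_comm] <;> linarith

/-- the lower bound of the clique probability of the conditional law -/
lemma lcs_flow {k : ℕ} {r a MA F C1 C2 D κ2 mA e T2 T3 U : ℝ} (hk0 : (0 : ℝ) < k) (r0 : 0 < r)
    (apos : 0 < a) (ha2 : r / 2 ≤ a) (D0 : 0 ≤ D) (C10 : 0 < C1)
    (hC1 : C1 = 1 + (k + k ^ 2) / κ2) (hC2 : C2 = k / κ2 + C1 * (2 / r) ^ k) (hD : D = r ^ k - U)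
    (u1 : |mA - 1| ≤ D / κ2) (u3 : e ≤ D / κ2) (hMA0 : 0 ≤ MA) (hMAr : MA ≤ r)
    (hmA' : MA = a * mA) (hmA1 : |mA - 1| ≤ 1) (hcte : U ≤ a ^ k * F + T2 + T3)
    (hT2le2 : T2 ≤ k * e) (hT3le2 : T3 ≤ (k : ℝ) ^ 2 * e) : 1 - C2 * D ≤ F := by
  have h1 : r ^ k - C1 * D ≤ a ^ k * F := by
    have h2 : (k + (k : ℝ) ^ 2) * e ≤ (k + (k : ℝ) ^ 2) * (D / κ2) :=
      mul_le_mul_of_nonneg_left u3 (by positivity)
    have h3 : C1 * D = D + (k + (k : ℝ) ^ 2) * (D / κ2) := by rw [hC1]; ring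
    have h4 : (k + (k : ℝ) ^ 2) * e = k * e + (k : ℝ) ^ 2 * e := by ring
    rw [h3]
    linarith
  have hak : 0 < a ^ k := pow_pos apos k
  have h4 : MA ^ k ≤ r ^ k := pow_le_pow_left₀ hMA0 hMAr k
  have h5 : a ^ k * (mA ^ k - C1 * D * (2 / r) ^ k) ≤ a ^ k * F := by
    have h6 : 1 ≤ a ^ k * (2 / r) ^ k := by
      rw [← mul_pow]
      apply one_le_pow₀
      rw [mul_div_assoc', le_div_iff₀ r0]
      linarith
    have h7 : C1 * D * 1 ≤ C1 * D * (a ^ k * (2 / r) ^ k) :=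
      mul_le_mul_of_nonneg_left h6 (by positivity)
    have h8 : a ^ k * mA ^ k = MA ^ k := by rw [hmA', mul_pow]
    have h9 : MA ^ k ≤ r ^ k := h4
    calc a ^ k * (mA ^ k - C1 * D * (2 / r) ^ k)
        = a ^ k * mA ^ k - C1 * D * (a ^ k * (2 / r) ^ k) := by ring
      _ ≤ r ^ k - C1 * D := by rw [h8]; linarith
      _ ≤ _ := h1
  have h9 := le_of_mul_le_mul_left h5 hak
  have h10 : 1 - k * |mA - 1| ≤ mA ^ k := by
    have h11 : -2 ≤ mA - 1 := by
      have := (abs_le.1 hmA1).1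
      linarith
    have h12 := one_add_mul_le_pow h11 k
    rw [show 1 + (mA - 1) = mA by ring] at h12
    have h13 : -|mA - 1| ≤ mA - 1 := neg_abs_le _
    have h14 := mul_le_mul_of_nonneg_left h13 hk0.le
    linarith
  have h15 : k * |mA - 1| ≤ k * (D / κ2) := mul_le_mul_of_nonneg_left u1 hk0.le
  have h16 : C2 * D = k * (D / κ2) + C1 * D * (2 / r) ^ k := by rw [hC2]; ring
  rw [h16]
  linarith

theorem t_LCS : S_CRF → S_CNC → S_CAA → S_CTE → S_LCS := by
  intro hCRF hCNC hCAA hCTE k r hk hL hRC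
  have hRC' := hRC
  obtain ⟨r0, r1, hrk⟩ := hRC'
  have hk1 : 0 < k := by omega
  have hk0 : (0 : ℝ) < k := by exact_mod_cast hk1
  have hk2 : (2 : ℝ) ≤ k := by exact_mod_cast hk
  have hCrt : Crt k (r / k) := by
    have e : (k : ℝ) * (r / k) = r := by field_simp
    refine ⟨by positivity, ?_, ?_⟩
    · rw [e]; exact r1
    · rw [e]; exact hrk
  have h2r := (hCRF k hk (r / k) hCrt).2.2
  have e0 : (k : ℝ) * (r / k) = r := by field_simp
  rw [e0] at h2r
  obtain ⟨δ, hδ⟩ : ∃ δ : ℝ, δ = 2 * r ^ (k - 1) - 1 := ⟨_, rfl⟩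
  have δ0 : 0 < δ := by rw [hδ]; linarith
  obtain ⟨g, hg⟩ : ∃ g : ℝ, g = min (1 / (4 * (k : ℝ))) (δ / (2 * ((k : ℝ) + 1))) := ⟨_, rfl⟩
  have g0 : 0 < g := by rw [hg]; exact lt_min (by positivity) (by positivity)
  have g1 : g * (4 * k) ≤ 1 := by
    have : g ≤ 1 / (4 * (k : ℝ)) := by rw [hg]; exact min_le_left _ _
    rwa [le_div_iff₀ (by positivity)] at this
  have g2 : g * (2 * (k + 1)) ≤ δ := by
    have : g ≤ δ / (2 * ((k : ℝ) + 1)) := by rw [hg]; exact min_le_right _ _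
    rwa [le_div_iff₀ (by positivity)] at this
  have g8 : g ≤ 1 / 8 := by
    have h1 : g * (4 * 2) ≤ g * (4 * k) := by gcongr
    linarith
  have hkg : (k : ℝ) * g ≤ 1 / 4 := by linarith
  have hr1p : r ^ (k - 1) ≤ 1 := pow_le_one₀ r0.le r1.le
  have hgr : 1 + g ≤ (2 - k * g) * r ^ (k - 1) := lcs_hgr hδ g0 g2 hr1p
  obtain ⟨κ', κ0, hκ'⟩ := hCAA k r g hk hL hRC g0 (by linarith)
  -- the constants
  obtain ⟨R, hR⟩ : ∃ R : ℝ, R = 1 / 2 * ((r / 2) ^ k * κ') := ⟨_, rfl⟩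
  have R0 : 0 < R := by rw [hR]; positivity
  obtain ⟨κ2, hκ2⟩ : ∃ κ2 : ℝ, κ2 = min (min R (k * (r / 2) ^ (k - 1))) (k * (g / 4)) := ⟨_, rfl⟩
  have κ20 : 0 < κ2 := by
    rw [hκ2]
    exact lt_min (lt_min R0 (by positivity)) (by positivity)
  have κ2a : κ2 ≤ R := by rw [hκ2]; exact (min_le_left _ _).trans (min_le_left _ _)
  have κ2b : κ2 ≤ k * (r / 2) ^ (k - 1) := by
    rw [hκ2]; exact (min_le_left _ _).trans (min_le_right _ _)
  have κ2c : κ2 ≤ k * (g / 4) := by rw [hκ2]; exact min_le_right _ _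
  obtain ⟨C1, hC1⟩ : ∃ C1 : ℝ, C1 = 1 + (k + k ^ 2) / κ2 := ⟨_, rfl⟩
  have C10 : 0 < C1 := by rw [hC1]; positivity
  obtain ⟨C2, hC2⟩ : ∃ C2 : ℝ, C2 = k / κ2 + C1 * (2 / r) ^ k := ⟨_, rfl⟩
  have C20 : 0 < C2 := by rw [hC2]; positivity
  obtain ⟨C3, hC3⟩ : ∃ C3 : ℝ, C3 = 1 / κ2 + 7 * k * C2 + k / κ2 := ⟨_, rfl⟩
  have C30 : 0 < C3 := by rw [hC3]; positivity
  obtain ⟨γ0, hγ0⟩ : ∃ γ0 : ℝ, γ0 = min (min (min (r / 4) (g / (4 * k)) / (2 + 2 / g))
      (g * r * min κ' 1 / 2)) (min (R / (k ^ 2 * (1 + 1 / g))) (g ^ 2 / (4 * k))) := ⟨_, rfl⟩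
  have γ00 : 0 < γ0 := by
    rw [hγ0]
    refine lt_min (lt_min ?_ ?_) (lt_min ?_ ?_)
    · exact div_pos (lt_min (by positivity) (by positivity)) (by positivity)
    · have : 0 < min κ' 1 := lt_min κ0 one_pos
      positivity
    · positivity
    · positivity
  have γa : γ0 * (2 + 2 / g) ≤ min (r / 4) (g / (4 * k)) := by
    have : γ0 ≤ min (r / 4) (g / (4 * k)) / (2 + 2 / g) := by
      rw [hγ0]; exact (min_le_left _ _).trans (min_le_left _ _)
    rwa [le_div_iff₀ (by positivity)] at this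
  have γb : γ0 ≤ g * r * min κ' 1 / 2 := by
    rw [hγ0]; exact (min_le_left _ _).trans (min_le_right _ _)
  have γc : γ0 * (k ^ 2 * (1 + 1 / g)) ≤ R := by
    have : γ0 ≤ R / (k ^ 2 * (1 + 1 / g)) := by
      rw [hγ0]; exact (min_le_right _ _).trans (min_le_left _ _)
    rwa [le_div_iff₀ (by positivity)] at this
  have γd : γ0 ≤ g ^ 2 / (4 * k) := by
    rw [hγ0]; exact (min_le_right _ _).trans (min_le_right _ _)
  refine ⟨1 / C3, γ0, by positivity, γ00, fun ι _ p x hF hd => ?_⟩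
  obtain ⟨p0, p1, x0, xk, hm⟩ := hF
  obtain ⟨d0, hd0⟩ : ∃ d0 : ℝ, d0 = dC p x := ⟨_, rfl⟩
  rw [← hd0] at hd ⊢
  -- the three parts
  obtain ⟨pL, hpL⟩ : ∃ pL : ι → ℝ, pL = fun i => if x i ≤ g then p i else 0 := ⟨_, rfl⟩
  obtain ⟨pA, hpA⟩ : ∃ pA : ι → ℝ, pA = fun i => if g < x i ∧ x i ≤ 1 + g then p i else 0 :=
    ⟨_, rfl⟩
  obtain ⟨pE, hpE⟩ : ∃ pE : ι → ℝ, pE = fun i => if 1 + g < x i then p i else 0 := ⟨_, rfl⟩
  have hcase : ∀ i, (x i ≤ g ∧ pL i = p i ∧ pA i = 0 ∧ pE i = 0) ∨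
      ((g < x i ∧ x i ≤ 1 + g) ∧ pL i = 0 ∧ pA i = p i ∧ pE i = 0) ∨
      (1 + g < x i ∧ pL i = 0 ∧ pA i = 0 ∧ pE i = p i) := by
    intro i
    rw [hpL, hpA, hpE]
    simp only []
    rcases le_or_gt (x i) g with h | h
    · left
      refine ⟨h, if_pos h, if_neg fun h' => absurd h'.1 (not_lt.2 h), if_neg ?_⟩
      linarith
    · rcases le_or_gt (x i) (1 + g) with h2 | h2
      · right; left
        exact ⟨⟨h, h2⟩, if_neg (not_le.2 h), if_pos ⟨h, h2⟩, if_neg (not_lt.2 h2)⟩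
      · right; right
        exact ⟨h2, if_neg (not_le.2 h), if_neg fun h' => absurd h'.2 (not_le.2 h2), if_pos h2⟩
  have pL0 : ∀ i, 0 ≤ pL i := fun i => by
    have := p0 i
    rcases hcase i with h | h | h
    · rw [h.2.1]; exact this
    · rw [h.2.1]
    · rw [h.2.1]
  have pA0 : ∀ i, 0 ≤ pA i := fun i => by
    have := p0 i
    rcases hcase i with h | h | h
    · rw [h.2.2.1]
    · rw [h.2.2.1]; exact this
    · rw [h.2.2.1]
  have pE0 : ∀ i, 0 ≤ pE i := fun i => by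
    have := p0 i
    rcases hcase i with h | h | h
    · rw [h.2.2.2]
    · rw [h.2.2.2]
    · rw [h.2.2.2]; exact this
  have psum : ∀ i, p i = pL i + pA i + pE i := fun i => by
    rcases hcase i with h | h | h <;> rw [h.2.1, h.2.2.1, h.2.2.2] <;> ring
  obtain ⟨a, ha⟩ : ∃ a : ℝ, a = ∑ i, pA i := ⟨_, rfl⟩
  obtain ⟨e, he⟩ : ∃ e : ℝ, e = ∑ i, pE i := ⟨_, rfl⟩
  obtain ⟨mL, hmL⟩ : ∃ mL : ℝ, mL = ∑ i, pL i * x i := ⟨_, rfl⟩
  obtain ⟨MA, hMA⟩ : ∃ MA : ℝ, MA = ∑ i, pA i * x i := ⟨_, rfl⟩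
  obtain ⟨ME, hME⟩ : ∃ ME : ℝ, ME = ∑ i, pE i * x i := ⟨_, rfl⟩
  obtain ⟨SA, hSA⟩ : ∃ SA : ℝ, SA = ∑ i, pA i * |x i - 1| := ⟨_, rfl⟩
  have a00 : 0 ≤ a := by rw [ha]; exact sum_nonneg fun i _ => pA0 i
  have e00 : 0 ≤ e := by rw [he]; exact sum_nonneg fun i _ => pE0 i
  have mL0 : 0 ≤ mL := by rw [hmL]; exact sum_nonneg fun i _ => mul_nonneg (pL0 i) (x0 i)
  have ME0 : 0 ≤ ME := by rw [hME]; exact sum_nonneg fun i _ => mul_nonneg (pE0 i) (x0 i)
  have SA0 : 0 ≤ SA := by rw [hSA]; exact sum_nonneg fun i _ => mul_nonneg (pA0 i) (abs_nonneg _)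
  have ha1 : a ≤ 1 := by
    rw [ha, ← p1]
    refine sum_le_sum fun i _ => ?_
    linarith [psum i, pL0 i, pE0 i]
  have hrsum : r = mL + MA + ME := by
    rw [hmL, hMA, hME, ← sum_add_distrib, ← sum_add_distrib, ← hm]
    unfold mu
    refine sum_congr rfl fun i _ => ?_
    rw [psum i]
    ring
  have b1 : mL ≤ d0 := by
    rw [hmL, hd0]
    unfold dC
    refine sum_le_sum fun i _ => ?_
    rcases hcase i with h | h | h
    · rw [h.2.1]
      apply mul_le_mul_of_nonneg_left _ (p0 i)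
      refine le_min le_rfl ?_
      have := x0 i
      rw [abs_of_nonpos (by linarith)]
      linarith
    · rw [h.2.1, zero_mul]
      exact mul_nonneg (p0 i) (le_min (x0 i) (abs_nonneg _))
    · rw [h.2.1, zero_mul]
      exact mul_nonneg (p0 i) (le_min (x0 i) (abs_nonneg _))
  have b2 : g * SA ≤ d0 := by
    rw [hSA, hd0, mul_sum]
    unfold dC
    refine sum_le_sum fun i _ => ?_
    rcases hcase i with h | h | h
    · rw [h.2.2.1, zero_mul, mul_zero]
      exact mul_nonneg (p0 i) (le_min (x0 i) (abs_nonneg _))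
    · rw [h.2.2.1]
      have h3 : |x i - 1| ≤ 1 := by
        rw [abs_le]
        have := h.1.1
        have := h.1.2
        constructor <;> linarith
      have h4 : g * |x i - 1| ≤ min (x i) |x i - 1| := by
        refine le_min ?_ ?_
        · have : g * |x i - 1| ≤ g * 1 := mul_le_mul_of_nonneg_left h3 g0.le
          linarith [h.1.1]
        · exact mul_le_of_le_one_left (abs_nonneg _) (by linarith)
      calc g * (p i * |x i - 1|) = p i * (g * |x i - 1|) := by ring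
        _ ≤ _ := mul_le_mul_of_nonneg_left h4 (p0 i)
    · rw [h.2.2.1, zero_mul, mul_zero]
      exact mul_nonneg (p0 i) (le_min (x0 i) (abs_nonneg _))
  have b3 : g * e ≤ d0 := by
    rw [he, hd0, mul_sum]
    unfold dC
    refine sum_le_sum fun i _ => ?_
    rcases hcase i with h | h | h
    · rw [h.2.2.2, mul_zero]
      exact mul_nonneg (p0 i) (le_min (x0 i) (abs_nonneg _))
    · rw [h.2.2.2, mul_zero]
      exact mul_nonneg (p0 i) (le_min (x0 i) (abs_nonneg _))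
    · rw [h.2.2.2, mul_comm]
      apply mul_le_mul_of_nonneg_left _ (p0 i)
      have := h.1
      rw [abs_of_pos (by linarith only [this, g0])]
      exact le_min (by linarith only [this, g0]) (by linarith only [this])
  have b4 : g * ME ≤ (1 + g) * d0 := by
    rw [hME, hd0, mul_sum]
    unfold dC
    rw [mul_sum]
    refine sum_le_sum fun i _ => ?_
    rcases hcase i with h | h | h
    · rw [h.2.2.2, zero_mul, mul_zero]
      exact mul_nonneg (by linarith) (mul_nonneg (p0 i) (le_min (x0 i) (abs_nonneg _)))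
    · rw [h.2.2.2, zero_mul, mul_zero]
      exact mul_nonneg (by linarith) (mul_nonneg (p0 i) (le_min (x0 i) (abs_nonneg _)))
    · rw [h.2.2.2]
      have h1 := h.1
      rw [abs_of_pos (by linarith only [h1, g0]), min_eq_right (by linarith only)]
      have h3 : g * x i ≤ (1 + g) * (x i - 1) := by linarith only [h1]
      calc g * (p i * x i) = p i * (g * x i) := by ring
        _ ≤ p i * ((1 + g) * (x i - 1)) := mul_le_mul_of_nonneg_left h3 (p0 i)
        _ = _ := by ring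
  have b5 : d0 ≤ mL + SA + k * e := by
    rw [hmL, hSA, he, hd0, mul_sum, ← sum_add_distrib, ← sum_add_distrib]
    unfold dC
    refine sum_le_sum fun i _ => ?_
    rcases hcase i with h | h | h
    · rw [h.2.1, h.2.2.1, h.2.2.2, zero_mul, mul_zero, add_zero, add_zero]
      exact mul_le_mul_of_nonneg_left (min_le_left _ _) (p0 i)
    · rw [h.2.1, h.2.2.1, h.2.2.2, zero_mul, mul_zero, add_zero, zero_add]
      exact mul_le_mul_of_nonneg_left (min_le_right _ _) (p0 i)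
    · rw [h.2.1, h.2.2.1, h.2.2.2, zero_mul, zero_mul, zero_add, zero_add, mul_comm]
      exact mul_le_mul_of_nonneg_right ((min_le_left _ _).trans (xk i)) (p0 i)
  have d00 : 0 ≤ d0 := by
    rw [hd0]
    exact sum_nonneg fun i _ => mul_nonneg (p0 i) (le_min (x0 i) (abs_nonneg _))
  have hMAa : |MA - a| ≤ SA := by
    rw [hMA, ha, hSA, ← sum_sub_distrib]
    refine (abs_sum_le_sum_abs _ _).trans (sum_le_sum fun i _ => ?_)
    rw [show pA i * x i - pA i = pA i * (x i - 1) by ring, abs_mul, abs_of_nonneg (pA0 i)]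
  have b2' : SA ≤ d0 / g := by rw [le_div_iff₀ g0]; linarith only [b2]
  have b3' : e ≤ d0 / g := by rw [le_div_iff₀ g0]; linarith only [b3]
  have b4' : ME ≤ (1 + 1 / g) * d0 := by
    have h1 : ME ≤ (1 + g) * d0 / g := by rw [le_div_iff₀ g0]; linarith only [b4]
    have h2 : (1 + g) * d0 / g = (1 + 1 / g) * d0 := by
      field_simp
      ring
    linarith only [h1, h2]
  have hdg : d0 / g = 1 / g * d0 := by ring
  have hMAa2 := abs_le.1 (hMAa.trans b2')
  have hbig : (2 + 2 / g) * d0 ≤ min (r / 4) (g / (4 * k)) := by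
    refine le_trans ?_ γa
    rw [mul_comm]
    exact mul_le_mul_of_nonneg_right hd (by positivity)
  have hbig' : (2 + 2 / g) * d0 = 2 * d0 + 2 * (1 / g * d0) := by ring
  have hbig1 := hbig.trans (min_le_left _ _)
  have hbig2 := hbig.trans (min_le_right _ _)
  have h1g : 0 ≤ 1 / g * d0 := by positivity
  have har : |a - r| ≤ (2 + 2 / g) * d0 := by
    rw [hdg] at hMAa2
    rw [abs_le, hrsum, hbig']
    have h5 : (1 + 1 / g) * d0 = d0 + 1 / g * d0 := by ring
    rw [h5] at b4'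
    constructor <;> linarith only [hMAa2.1, hMAa2.2, b4', b1, mL0, ME0, h1g, d00]
  have har2 := abs_le.1 har
  have ha2 : r / 2 ≤ a := by linarith only [har2.1, hbig1, r0]
  have apos : 0 < a := by linarith only [ha2, r0]
  have hMA2 : r / 2 ≤ MA := by
    rw [hdg] at hMAa2
    have h5 : (1 + 1 / g) * d0 = d0 + 1 / g * d0 := by ring
    rw [h5] at b4'
    linarith only [hrsum, b1, b4', hbig1, hbig', h1g, d00, r0]
  have hMA1 : MA ≤ 1 := by linarith only [hrsum, mL0, ME0, r1]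
  obtain ⟨mA, hmA⟩ : ∃ mA : ℝ, mA = MA / a := ⟨_, rfl⟩
  have hmA' : MA = a * mA := by rw [hmA]; field_simp
  have hmA1 : |mA - 1| ≤ κ' ∧ |mA - 1| ≤ 1 := by
    have h1 : |mA - 1| ≤ d0 / g / (r / 2) := by
      have h2 : mA - 1 = (MA - a) / a := by rw [hmA]; field_simp
      rw [h2, abs_div, abs_of_pos apos]
      calc |MA - a| / a ≤ (d0 / g) / a := div_le_div_of_nonneg_right (hMAa.trans b2') apos.le
        _ ≤ (d0 / g) / (r / 2) :=
          div_le_div_of_nonneg_left (by positivity) (by positivity) ha2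
    have h3 : d0 / g / (r / 2) ≤ min κ' 1 := by
      rw [div_div, div_le_iff₀ (by positivity)]
      have := hd.trans γb
      linarith only [this]
    exact ⟨(h1.trans h3).trans (min_le_left _ _), (h1.trans h3).trans (min_le_right _ _)⟩
  -- the conditional law
  obtain ⟨q, hq⟩ : ∃ q : ι → ℝ, q = fun i => pA i / a := ⟨_, rfl⟩
  have q0 : ∀ i, 0 ≤ q i := fun i => by rw [hq]; exact div_nonneg (pA0 i) apos.le
  have q1 : ∑ i, q i = 1 := by
    rw [hq]
    simp only []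
    rw [← sum_div, ← ha]
    exact div_self apos.ne'
  have hqx : ∀ i, q i ≠ 0 → g ≤ x i := by
    intro i hi
    rcases hcase i with h | h | h
    · exact absurd (by rw [hq]; simp only []; rw [h.2.2.1, zero_div]) hi
    · exact h.1.1.le
    · exact absurd (by rw [hq]; simp only []; rw [h.2.2.1, zero_div]) hi
  have hmuq : mu q x = mA := by
    rw [hmA, hMA, sum_div]
    unfold mu
    rw [hq]
    refine sum_congr rfl fun i _ => ?_
    ring
  obtain ⟨F, hFdef⟩ : ∃ F : ℝ, F = EE q x k (fun s => if (k : ℝ) ≤ s then 1 else 0) := ⟨_, rfl⟩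
  have hFle : F ≤ mA ^ k - κ' * |mA - 1| := by
    have := hκ' ι q x q0 q1 x0 hqx (by rw [hmuq]; exact hmA1.1)
    rwa [hmuq, ← hFdef] at this
  have hAF : EE pA x k (fun s => if (k : ℝ) ≤ s then 1 else 0) = a ^ k * F := by
    have h1 : pA = fun i => a * q i := by
      funext i
      rw [hq]
      field_simp
    rw [h1, EE_smul, ← hFdef]
  obtain ⟨U, hU⟩ : ∃ U : ℝ, U = EE p x k (fun s => if (k : ℝ) ≤ s then 1 else 0) := ⟨_, rfl⟩
  obtain ⟨T2, hT2⟩ : ∃ T2 : ℝ, T2 = k * ∑ i, pE i * (if x i < 2 - k * g then a ^ (k - 1) else 1) :=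
    ⟨_, rfl⟩
  obtain ⟨T3, hT3⟩ : ∃ T3 : ℝ, T3 = (k : ℝ) ^ 2 * e ^ 2 := ⟨_, rfl⟩
  have hcte : U ≤ a ^ k * F + T2 + T3 := by
    have h1 := hCTE ι p x k g hk p0 p1 x0 g0 (by linarith)
    rw [← hU] at h1
    have e1 : (fun i => if g < x i ∧ x i ≤ 1 + g then p i else 0) = pA := hpA.symm
    have e2 : (∑ i, if 1 + g < x i then p i else 0) = e := by rw [he, hpE]
    have e3 : (∑ j, if g < x j ∧ x j ≤ 1 + g then p j else 0) = a := by rw [ha, hpA]
    have e4 : (∑ i, (if 1 + g < x i then p i else 0) * (if x i < 2 - k * g then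
      (∑ j, if g < x j ∧ x j ≤ 1 + g then p j else 0) ^ (k - 1) else 1)) =
      ∑ i, pE i * (if x i < 2 - k * g then a ^ (k - 1) else 1) := by
      rw [e3, hpE]
    rw [e4, e1, e2, hAF] at h1
    rw [hT2, hT3]
    exact h1
  have hapow : 1 + g / 2 ≤ (2 - k * g) * a ^ (k - 1) := by
    have h1 := abs_pow_sub_pow_le a r (k - 1)
    have h2 : max |a| |r| ^ (k - 1 - 1) ≤ 1 := by
      apply pow_le_one₀ (by positivity)
      rw [abs_of_nonneg a00, abs_of_pos r0]
      exact max_le ha1 r1.le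
    have h3 : ((k - 1 : ℕ) : ℝ) ≤ k := by
      have : k - 1 ≤ k := by omega
      exact_mod_cast this
    have h4 : |a ^ (k - 1) - r ^ (k - 1)| ≤ g / 4 := by
      calc |a ^ (k - 1) - r ^ (k - 1)| ≤ |a - r| * ((k - 1 : ℕ) : ℝ) * max |a| |r| ^ (k - 1 - 1) :=
            h1
        _ ≤ g / (4 * k) * k * 1 := by
            have := har.trans hbig2
            gcongr
        _ = g / 4 := by field_simp
    have h5 := (abs_le.1 h4).1
    have h6 : (2 - k * g) * (r ^ (k - 1) - g / 4) ≤ (2 - k * g) * a ^ (k - 1) :=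
      mul_le_mul_of_nonneg_left (by linarith only [h5]) (by linarith only [hkg])
    have h7 : (2 - k * g) * (g / 4) ≤ g / 2 := by
      have : 0 ≤ k * g * g := by positivity
      linarith only [this]
    linarith only [h6, h7, hgr]
  have hap1 : a ^ (k - 1) ≤ 1 := pow_le_one₀ a00 ha1
  have haphalf : 1 / 2 ≤ a ^ (k - 1) := by
    have h1 : 0 ≤ a ^ (k - 1) := pow_nonneg a00 _
    have h2 : (2 - k * g) * a ^ (k - 1) ≤ 2 * a ^ (k - 1) :=
      mul_le_mul_of_nonneg_right (by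
        have : 0 ≤ (k : ℝ) * g := by positivity
        linarith only [this]) h1
    linarith only [h2, hapow, g0]
  have hT2le : T2 ≤ k * (a ^ (k - 1) * ME - g / 2 * e) := by
    rw [hT2]
    apply mul_le_mul_of_nonneg_left _ hk0.le
    rw [hME, he, mul_sum, mul_sum, ← sum_sub_distrib]
    refine sum_le_sum fun i _ => ?_
    rcases hcase i with h | h | h
    · rw [h.2.2.2]
      simp
    · rw [h.2.2.2]
      simp
    · rw [h.2.2.2]
      have h1 := h.1
      have h2 : (if x i < 2 - k * g then a ^ (k - 1) else 1) ≤ a ^ (k - 1) * x i - g / 2 := by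
        split_ifs with h3
        · have h4 : a ^ (k - 1) * (1 + g) ≤ a ^ (k - 1) * x i :=
            mul_le_mul_of_nonneg_left h1.le (by linarith only [haphalf])
          have h5 := mul_le_mul_of_nonneg_right haphalf g0.le
          linarith only [h4, h5]
        · push Not at h3
          have : a ^ (k - 1) * (2 - k * g) ≤ a ^ (k - 1) * x i :=
            mul_le_mul_of_nonneg_left h3 (by linarith only [haphalf])
          linarith only [this, hapow]
      calc p i * (if x i < 2 - k * g then a ^ (k - 1) else 1)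
          ≤ p i * (a ^ (k - 1) * x i - g / 2) := mul_le_mul_of_nonneg_left h2 (p0 i)
        _ = _ := by ring
  have hT2le2 : T2 ≤ k * e := by
    rw [hT2]
    apply mul_le_mul_of_nonneg_left _ hk0.le
    rw [he]
    refine sum_le_sum fun i _ => ?_
    apply mul_le_of_le_one_right (pE0 i)
    split_ifs
    · exact hap1
    · exact le_rfl
  have hesmall : e ≤ g / (4 * k) := by
    refine b3'.trans ?_
    rw [div_le_iff₀ g0]
    have := hd.trans γd
    calc d0 ≤ g ^ 2 / (4 * k) := this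
      _ = g / (4 * k) * g := by ring
  have hT3le : T3 ≤ k * (g / 4 * e) := by
    rw [hT3]
    have h1 : e * e ≤ g / (4 * k) * e := mul_le_mul_of_nonneg_right hesmall e00
    have h2 : (k : ℝ) ^ 2 * (g / (4 * k) * e) = k * (g / 4 * e) := by field_simp
    rw [← h2, pow_two e]
    exact mul_le_mul_of_nonneg_left h1 (by positivity)
  have hT3le2 : T3 ≤ (k : ℝ) ^ 2 * e := by
    rw [hT3]
    apply mul_le_mul_of_nonneg_left _ (by positivity)
    have h1 : e ≤ 1 := by
      refine hesmall.trans ?_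
      rw [div_le_one (by positivity)]
      linarith only [g1, g8, hk2]
    have h2 := mul_le_mul_of_nonneg_right h1 e00
    rw [pow_two]
    linarith only [h2]
  have hkey := lcs_real (δ := (1 + 1 / g) * d0) hk ha2 ha1 hMA2 hMA1 r0 hrsum mL0 ME0 e00 hmA' hFle
    κ0 hcte hT2le hT3le b4' (by
      rw [← hR]
      refine le_trans ?_ γc
      have := mul_le_mul_of_nonneg_right hd
        (show 0 ≤ (k : ℝ) ^ 2 * (1 + 1 / g) by positivity)
      linarith only [this])
  rw [← hR] at hkey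
  obtain ⟨D, hD⟩ : ∃ D : ℝ, D = r ^ k - U := ⟨_, rfl⟩
  rw [← hD] at hkey
  have hmabs := abs_nonneg (mA - 1)
  have hlow : κ2 * (|mA - 1| + mL + e) ≤ D := by
    have c1 := mul_le_mul_of_nonneg_right κ2a hmabs
    have c2 := mul_le_mul_of_nonneg_right κ2b mL0
    have c3 := mul_le_mul_of_nonneg_right κ2c e00
    linarith only [c1, c2, c3, hkey]
  have D0 : 0 ≤ D := le_trans (by positivity) hlow
  obtain ⟨u1, u2, u3⟩ := lcs_u κ20 hmabs mL0 e00 hlow
  have hFlow : 1 - C2 * D ≤ F := lcs_flow hk0 r0 apos ha2 D0 C10 hC1 hC2 hD u1 u3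
    (by linarith only [hMA2, r0]) (by linarith only [hrsum, mL0, ME0]) hmA' hmA1.2 hcte hT2le2 hT3le2
  have hcnc := hCNC k hk1 ι q (fun i => x i / k) (C2 * D)
    ⟨q0, q1, fun i => div_nonneg (x0 i) hk0.le⟩ (by
      have h1 : mu q (fun i => x i / k) = mA / k := by
        rw [← hmuq]
        unfold mu
        rw [sum_div]
        refine sum_congr rfl fun i _ => ?_
        ring
      rw [h1]
      have h2 : (k : ℝ) * (mA / k) = mA := by field_simp
      rw [h2]
      have h3 : mA - 1 ≤ D / κ2 := (le_abs_self _).trans u1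
      have h4 : D / κ2 ≤ C2 * D := by
        rw [hC2]
        have h5 : 0 ≤ C1 * (2 / r) ^ k * D := by positivity
        have h6 : D / κ2 ≤ k * (D / κ2) :=
          le_mul_of_one_le_left (by positivity) (by linarith only [hk2])
        have h7 : (k / κ2 + C1 * (2 / r) ^ k) * D = k * (D / κ2) + C1 * (2 / r) ^ k * D := by ring
        rw [h7]
        linarith only [h5, h6]
      linarith only [h3, h4]) (by
      rw [UP_scale q x k hk1, ← hFdef]
      exact hFlow)
  have hSAle : SA ≤ 7 * k * C2 * D := by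
    have h1 : ∑ i, q i * |x i / k - 1 / (k : ℝ)| = SA / (a * k) := by
      rw [hSA, sum_div]
      refine sum_congr rfl fun i _ => ?_
      rw [hq]
      have : x i / k - 1 / (k : ℝ) = (x i - 1) / k := by ring
      rw [this, abs_div, abs_of_pos hk0]
      field_simp
    rw [h1, div_le_iff₀ (by positivity)] at hcnc
    have h2 : 7 * (C2 * D) * (a * k) ≤ 7 * (C2 * D) * (1 * k) := by gcongr
    linarith only [h2, hcnc]
  have hfin : d0 ≤ C3 * D := by
    have h1 : k * e ≤ k * (D / κ2) := mul_le_mul_of_nonneg_left u3 hk0.le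
    have h2 : C3 * D = D / κ2 + 7 * k * C2 * D + k * (D / κ2) := by rw [hC3]; ring
    rw [h2]
    linarith only [h1, hSAle, b5, u2]
  have hPR : PR p x k k = 1 - U := by rw [PR_eq p x p1, ← hU]
  rw [hPR]
  have h1 : 1 / C3 * d0 ≤ D := by
    rw [one_div, inv_mul_le_iff₀ C30]
    exact hfin
  linarith only [h1, hD]

end Pool.Agent.Q182.XU
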