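import Pool.Agent.Q154.EM.BXB
import Pool.Agent.Q113.XU.Stm

/-! # Project XU (helper113): box check BXBs (helper182, after helper154) -/

set_option autoImplicit false

namespace Pool.Agent.Q182.XU

open Pool.Agent.Q54.EM Pool.Agent.Q154.EM

theorem case_ii' {q t c e t1 e1 : ℝ} (hq : 0 < q) (ht1 : t1 ≤ t) (htt : t ≤ 1)
    (ha2 : q * (1 - t) ≤ 15456 / 100000)
    (hc1 : 458 / 1000 ≤ c) (hc2 : c ≤ 4724 / 10000) (he0 : 0 ≤ e) (he10 : 0 ≤ e1)
    (h : q * (1 - c * (1 - c * (q * (1 - t)) - q * (1 - t))) +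
      (1 - c * (q * (1 - t)) - 2 * (q * (1 - t))) / (1 + e) ≤ (1 - q) * (1 - c * (q * (1 - t))))
    (he1 : e1 ≤ 2 * t1 - 4724 / 10000) : q * e1 ≤ e := by
  by_contra hlt
  push Not at hlt
  have ha0 : 0 ≤ q * (1 - t) := mul_nonneg hq.le (by linarith)
  obtain ⟨N, hN⟩ : ∃ N, N = 1 - c * (q * (1 - t)) - 2 * (q * (1 - t)) := ⟨_, rfl⟩
  rw [← hN] at h
  have hca : c * (q * (1 - t)) ≤ 1 / 2 * (16 / 100) :=
    mul_le_mul (by linarith) (by linarith) ha0 (by norm_num)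
  have hca0 : 0 ≤ c * (q * (1 - t)) := mul_nonneg (by linarith) ha0
  have hN0 : 0 < N := by rw [hN]; linarith
  have hN1 : N ≤ 1 := by rw [hN]; linarith
  have h1 : N * (1 - q * e1) < N / (1 + e) := by
    rw [lt_div_iff₀ (by linarith), mul_assoc]
    have h2 : (1 - q * e1) * (1 + e) < 1 := by
      have h3 : (1 - q * e1) * (1 + e) < (1 - e) * (1 + e) :=
        mul_lt_mul_of_pos_right (by linarith) (by linarith)
      have h4 : (1 - e) * (1 + e) = 1 - e * e := by ring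
      have h5 := mul_nonneg he0 he0
      linarith
    calc N * ((1 - q * e1) * (1 + e)) < N * 1 := mul_lt_mul_of_pos_left h2 hN0
      _ = N := mul_one N
  have key : q * (2 * t - c + c ^ 2 * (q * (1 - t)) - N * e1) =
      (q * (1 - c * (1 - c * (q * (1 - t)) - q * (1 - t))) + N * (1 - q * e1)) -
        (1 - q) * (1 - c * (q * (1 - t))) := by
    rw [hN]; ring
  have h2 : q * (2 * t - c + c ^ 2 * (q * (1 - t)) - N * e1) < 0 := by
    rw [key]; linarith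
  have h3 : 0 ≤ 2 * t - c + c ^ 2 * (q * (1 - t)) - N * e1 := by
    have h4 : N * e1 ≤ 1 * e1 := mul_le_mul_of_nonneg_right hN1 he10
    have h5 : 0 ≤ c ^ 2 * (q * (1 - t)) := mul_nonneg (sq_nonneg c) ha0
    linarith
  exact absurd (mul_nonneg hq.le h3) (not_le.2 h2)

theorem chkB_sound' (T : Tr) : ∀ (q1 q2 t1 t2 : ℚ), chkB T q1 q2 t1 t2 = true → 0 ≤ q1 →
    q2 ≤ 3 / 10 → 7 / 10 ≤ t1 → t2 ≤ 1 → ∀ q t c e : ℝ, (q1 : ℝ) ≤ q → q ≤ q2 → (t1 : ℝ) ≤ t →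
    t ≤ t2 → 0 < q → q * (1 - t) ≤ 15456 / 100000 → 458 / 1000 + 88 / 1000 * (q * (1 - t)) ≤ c →
    c ≤ 4724 / 10000 → 0 ≤ e → e ≤ 2 / 10 →
    ((1 - q) * q * (t + e) ^ 2 ≤ (1 - c * (q * (1 - t))) * e *
      (q * (1 + e) * (1 - c * (1 - c * (q * (1 - t)) - q * (1 - t))) + (1 - c * (q * (1 - t))) -
        2 * (q * (1 - t))) ∨
     q * (1 - c * (1 - c * (q * (1 - t)) - q * (1 - t))) +
        (1 - c * (q * (1 - t)) - 2 * (q * (1 - t))) / (1 + e) ≤ (1 - q) * (1 - c * (q * (1 - t)))) →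
    Dp q t c e < Gp q e := by
  induction T with
  | s => intro q1 q2 t1 t2 h; exact absurd h (by simp [chkB])
  | q a b iha ihb =>
    intro q1 q2 t1 t2 h hq1 hq2 ht1 ht2 q t c e hqq1 hqq2 htt1 htt2
    rw [chkB, Bool.and_eq_true] at h
    have hqr : (q1 : ℝ) ≤ q2 := hqq1.trans hqq2
    have hqr' : q1 ≤ q2 := by exact_mod_cast hqr
    rcases le_total q (((q1 + q2) / 2 : ℚ) : ℝ) with hm | hm
    · exact iha q1 ((q1 + q2) / 2) t1 t2 h.1 hq1 (by linarith) ht1 ht2 q t c e hqq1 hm htt1 htt2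
    · exact ihb ((q1 + q2) / 2) q2 t1 t2 h.2 (by linarith) hq2 ht1 ht2 q t c e hm hqq2 htt1 htt2
  | t a b iha ihb =>
    intro q1 q2 t1 t2 h hq1 hq2 ht1 ht2 q t c e hqq1 hqq2 htt1 htt2
    rw [chkB, Bool.and_eq_true] at h
    have htr : (t1 : ℝ) ≤ t2 := htt1.trans htt2
    have htr' : t1 ≤ t2 := by exact_mod_cast htr
    rcases le_total t (((t1 + t2) / 2 : ℚ) : ℝ) with hm | hm
    · exact iha q1 q2 t1 ((t1 + t2) / 2) h.1 hq1 hq2 ht1 (by linarith) q t c e hqq1 hqq2 htt1 hm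
    · exact ihb q1 q2 ((t1 + t2) / 2) t2 h.2 hq1 hq2 (by linarith) ht2 q t c e hqq1 hqq2 hm htt2
  | l n =>
    intro q1 q2 t1 t2 h hq1 hq2 ht1 ht2 q t c e hqq1 hqq2 htt1 htt2 hq ha2 hc1 hc2 he0 he2 hi
    rw [chkB, Bool.and_eq_true, Bool.and_eq_true, decide_eq_true_eq, decide_eq_true_eq] at h
    obtain ⟨h1, h2, h3⟩ := h
    obtain ⟨e1, he1⟩ : ∃ e1 : ℚ, e1 = n / 1000 := ⟨_, rfl⟩
    rw [← he1] at h1 h2 h3
    have he10 : (0 : ℚ) ≤ e1 := by rw [he1]; positivity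
    obtain ⟨k1, k2⟩ := okE_real h1
    have r1 : (0 : ℝ) ≤ q1 := by exact_mod_cast hq1
    have r2 : (q2 : ℝ) ≤ 3 / 10 := by
      have := (Rat.cast_le (K := ℝ)).2 hq2
      push_cast at this
      exact this
    have r3 : (7 / 10 : ℝ) ≤ t1 := by
      have := (Rat.cast_le (K := ℝ)).2 ht1
      push_cast at this
      exact this
    have r4 : (t2 : ℝ) ≤ 1 := by exact_mod_cast ht2
    have r5 : (0 : ℝ) ≤ e1 := by exact_mod_cast he10
    have r6 : (e1 : ℝ) ≤ 2 * t1 - 4724 / 10000 := by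
      have := (Rat.cast_le (K := ℝ)).2 h2
      push_cast at this
      exact this
    have r7 : dd (q1 : ℝ) q2 t2 e1 < gg (q2 : ℝ) e1 := by
      rw [← cast_dd, ← cast_gg]
      exact_mod_cast h3
    have ha0 : 0 ≤ q * (1 - t) := mul_nonneg hq.le (by linarith)
    have hge : q * (e1 : ℝ) ≤ e := by
      rcases hi with hi | hi
      · exact case_i (q1 := q1) (q2 := q2) (t1 := t1) (t2 := t2) hq r1 hqq1 hqq2 (by linarith)
          (by linarith) htt1 htt2 r4 ha2 hc1 hc2 he0 he2 hi k1 k2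
      · exact case_ii' (t1 := t1) hq htt1 (by linarith) ha2 (by linarith) hc2 he0 r5 hi r6
    have hka : (q1 : ℝ) * (1 - t2) ≤ q * (1 - t) :=
      mul_le_mul hqq1 (by linarith) (by linarith) hq.le
    have d1 : Dp q t c e ≤ q * dd (q1 : ℝ) q2 t2 e1 :=
      Dp_le hq r1 hqq1 hqq2 (by linarith) (by linarith) htt2 r4
        (by unfold cc; linarith) hc2 r5 hge
    have d2 : q * gg (q2 : ℝ) e1 ≤ Gp q e := Gp_ge hq hqq2 r2 r5 hge
    have d3 := mul_lt_mul_of_pos_left r7 hq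
    linarith

theorem t_BXBs : Pool.Agent.Q113.XU.S_BXBs := by
  intro q t c e hq hq3 ht ht1 ha hc1 hc2 he0 he2 hi
  refine chkB_sound' treeB 0 (3 / 10) (7 / 10) 1 chkB_tree (by norm_num) (by norm_num) (by norm_num)
    (by norm_num) q t c e ?_ ?_ ?_ ?_ hq ha hc1 hc2 he0 he2 hi
  · push_cast; exact hq.le
  · push_cast; exact hq3
  · push_cast; exact ht
  · push_cast; exact ht1.le

end Pool.Agent.Q182.XU
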