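import Pool.Agent.Q102.EM.W1N
import Pool.Agent.Q102.EM.W1
import Pool.Agent.Q176.EM.CS
import Pool.Agent.Q113.XU.Stm

/-! # Project XU (helper113): the limit of the zone `0.8 k < l < k` (helper182, after helper102) -/

set_option autoImplicit false

namespace Pool.Agent.Q182.XU

open Pool.Agent.Q54.EM Pool.Agent.Q102.EM Pool.Agent.Q113.XU

/-- final contradiction -/
theorem w1l_fin {r t u dl G A ms s b P1 TX c : ℝ} (hr : 8172 / 10000 ≤ r - u) (_hr1 : r - u ≤ 1)
    (_u0 : 0 ≤ u) (t0 : 0 < t) (t1 : t ≤ 2 / 10) (_dl0 : 0 ≤ dl) (dl1 : dl ≤ 1402 / 10000)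
    (G0 : 0 ≤ G)
    (m0 : 0 < ms) (m1 : ms ≤ 2602 / 10000) (b1 : b ≤ 20456 / 100000)
    (ts : t ≤ s) (sd : s ≤ t + dl) (A0 : 0 < A) (P10 : 0 ≤ P1) (hms : ms ≤ t + dl + u)
    (hPu : P1 * u ≤ 16 / 10 * TX) (hPG : P1 ≤ 16 / 10 * (r - u) * G)
    (hA : TX + (r - u) * dl * G ≤ A)
    (hmain : s * P1 - ms * P1 + c ≤ s * (G * (s - t))) (hc : (1 - b - s) * A = c * ms) : False := by
  have h1 : (ms - s) * P1 ≤ (t + dl - s) * P1 + P1 * u := by
    have : (ms - s) * P1 ≤ (t + dl + u - s) * P1 := mul_le_mul_of_nonneg_right (by linarith) P10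
    linarith
  have h2 : (t + dl - s) * P1 ≤ (t + dl - s) * (16 / 10 * (r - u) * G) :=
    mul_le_mul_of_nonneg_left hPG (by linarith)
  have h3 : s * (G * (s - t)) ≤ 16 / 10 * (r - u) * (G * (s - t)) :=
    mul_le_mul_of_nonneg_right (by linarith) (mul_nonneg G0 (by linarith))
  have h4 : c ≤ 16 / 10 * (TX + (r - u) * dl * G) := by linarith
  have h5 : c ≤ 16 / 10 * A := by linarith
  have h6 : (1 - b - s) * A ≤ 16 / 10 * A * ms := by
    rw [hc]; exact mul_le_mul_of_nonneg_right h5 m0.le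
  have h7 : (0.455 : ℝ) * A ≤ (1 - b - s) * A := mul_le_mul_of_nonneg_right (by linarith) A0.le
  have h8 : 16 / 10 * A * ms ≤ 16 / 10 * A * (2602 / 10000) :=
    mul_le_mul_of_nonneg_left m1 (by positivity)
  linarith

theorem t_W1L : S_W1L := by
  intro k r t q a e w1 W pp A dl ms s hk hRC hWr ha hq q1 hW t0 t1 e0 e1 hD
  obtain ⟨a0', a1', -, -, T0, T1, -, -, hr92⟩ := Pool.Agent.Q176.EM.cs k r hk hRC
  obtain ⟨hr, hkr, hrk⟩ := hRC
  rw [← ha] at a0' a1' hrk
  have a0 := a0'
  have a1 := a1'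
  have hkR : (6 : ℝ) ≤ k := by exact_mod_cast hk
  have hk0 : (0 : ℝ) < k := by linarith
  obtain ⟨b, hb⟩ : ∃ b : ℝ, b = a + 1 / 20 := ⟨_, rfl⟩
  obtain ⟨u, hu⟩ : ∃ u : ℝ, u = r - k * pp := ⟨_, rfl⟩
  have hpp : k * pp = r - u := by rw [hu]; ring
  have u0 : 0 ≤ u := by
    have := hD.pp1
    linarith
  have ur : u ≤ r := by
    have := mul_nonneg hk0.le hD.pp0
    linarith
  have dl0 := hD.dl0
  have A0 := hD.A0
  have ts := hD.s0
  have sd := hD.s1
  have hA := hD.hA
  rw [← hb] at hA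
  rw [← hWr] at T0 T1
  have hT : (1 - a) ^ k = W := by linarith
  have ha1 : a < 1 := by linarith
  have ha' : 0 < 1 - a := by linarith
  have ht' : 0 < 1 - t := by linarith
  have hT0 : 0 < W := by linarith
  have hms : ms = r - (r - u) * (1 - t - dl) := by rw [hD.em, hpp]
  have hmse : ms = (r - u) * (t + dl) + u := by rw [hms]; ring
  have ru : 0 ≤ r - u := by linarith
  have m0 : 0 < ms := by
    rw [hmse]
    rcases eq_or_lt_of_le u0 with h | h
    · rw [← h]
      have : 0 < (r - 0) * (t + dl) := mul_pos (by linarith) (by linarith)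
      linarith
    · have : 0 ≤ (r - u) * (t + dl) := mul_nonneg ru (by linarith)
      linarith
  have hms1 : ms ≤ 1301 / 1000 * t := by
    have hz : (e + t) / (1 + e) * (1 + e) = e + t := by
      have : 1 + e ≠ 0 := by linarith
      field_simp
    refine w1_ms t0 t1 a1 e0 e1 hz ?_
    rw [mul_div_assoc', le_div_iff₀ (by linarith)]
    exact hD.ms1
  have m1 : ms ≤ 2602 / 10000 := by linarith
  have b1 : b ≤ 20456 / 100000 := by linarith
  have A1 : A ≤ 375 / 10000 := w1n_A (by linarith) b1 m0 hms1 t1 A0 hA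
  have hpp' : 1 - pp = (1 - a) * (1 + u / (k * (1 - a))) := by
    have e1 : pp = (r - u) / k := by rw [← hpp]; field_simp
    have e2 : (1 - a) * (u / (k * (1 - a))) = u / k := by
      have : (1 - a : ℝ) ≠ 0 := ha'.ne'
      field_simp
    rw [mul_add, mul_one, e2, e1, ha]
    ring
  have hlow := w1n_low hk a0 ha1 hT hpp' u0 hT0
  have q0 : 0 < q := by
    by_contra h
    have h2 : q * (1 - t) ≤ 0 := mul_nonpos_of_nonpos_of_nonneg (by linarith) ht'.le
    linarith
  have w10 : 0 < w1 := by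
    by_contra h
    have h2 : w1 * (1 - q) ≤ 0 := mul_nonpos_of_nonpos_of_nonneg (by linarith) (by linarith)
    linarith
  obtain ⟨G, hG⟩ : ∃ G : ℝ, G = w1 / (1 - t) := ⟨_, rfl⟩
  have G0 : 0 < G := by rw [hG]; positivity
  have hWe : W = (1 - pp) ^ k - A + (r - u) * dl * G := by
    have h1 := hD.eW
    have h2 : (r - u) * dl * G = (k * pp * w1 * dl) / (1 - t) := by
      rw [hG, ← hpp]
      ring
    rw [h2]
    field_simp
    linarith
  have Z0 : 0 ≤ (r - u) * dl * G := by positivity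
  obtain ⟨X, hX⟩ : ∃ X : ℝ, X = u / (1 - a) := ⟨_, rfl⟩
  have X0 : 0 ≤ X := by rw [hX]; positivity
  rw [← hX] at hlow
  have hTX : 0 ≤ W * X := by positivity
  have hYA : W * X + (r - u) * dl * G ≤ A := by linarith
  have hX1 : X ≤ 1028 / 10000 := by
    by_contra h
    push Not at h
    have : (365 / 1000 : ℝ) * (1028 / 10000) ≤ W * X :=
      mul_le_mul T0 h.le (by norm_num) hT0.le
    norm_num at this
    linarith
  have huX : u ≤ X := by
    rw [hX, le_div_iff₀ ha']
    have : u * a ≥ 0 := by positivity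
    linarith
  have hu1 : u ≤ 1028 / 10000 := by linarith
  rcases A0.eq_or_lt with hA0 | hA0
  · -- no exceptional mass
    rw [← hA0] at hYA
    have hX2 : X = 0 := by
      have h1 : W * X ≤ 0 := by linarith
      have h2 : W * X = 0 := le_antisymm h1 hTX
      exact (mul_eq_zero.1 h2).resolve_left hT0.ne'
    have hu2 : u = 0 := by linarith
    have hdl2 : dl = 0 := by
      have h1 : (r - u) * dl * G = 0 := le_antisymm (by linarith) Z0
      have h2 := (mul_eq_zero.1 h1).resolve_right G0.ne'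
      exact (mul_eq_zero.1 h2).resolve_left (by rw [hu2]; linarith)
    have hs2 : s = t := by linarith
    have hm2 : ms = r * t := by rw [hmse, hu2, hdl2]; ring
    have hpp2 : pp = a := by
      rw [ha]
      rw [hu2] at hpp
      field_simp
      linarith
    have hmn := hD.mn
    rw [hs2, ← hA0, hpp2] at hmn
    have h1 : (t * (1 - a) ^ (k - 1) - (1 - 1 / k) * ms * (1 - a) ^ (k - 2)) * (ms * (1 - t))
        ≤ 0 := by nlinarith [hmn]
    have h2 : t * (1 - a) ^ (k - 1) - (1 - 1 / k) * ms * (1 - a) ^ (k - 2) ≤ 0 := by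
      by_contra hcon
      push Not at hcon
      have := mul_pos hcon (mul_pos m0 ht')
      linarith
    have hk2 : k - 1 = (k - 2) + 1 := by omega
    rw [hk2, pow_succ, hm2] at h2
    have h3 : (1 - a) ^ (k - 2) * t * ((1 - a) - (1 - 1 / k) * r) ≤ 0 := by nlinarith [h2]
    have h4 : 0 < (1 - a) ^ (k - 2) * t := by positivity
    have h5 : (1 - a) - (1 - 1 / k) * r ≤ 0 := by
      by_contra hcon
      push Not at hcon
      have := mul_pos h4 hcon
      linarith
    have h6 : (1 - 1 / k) * r = r - a := by rw [ha]; ring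
    rw [h6] at h5
    linarith
  have hwW : W ≤ w1 := by
    rw [hW]
    have : 0 ≤ w1 * q := by positivity
    linarith
  have hpow := w1n_pow hk a0 ha1 hT hpp' u0 hT0 (by rw [← hX]; exact hX1)
  obtain ⟨P1, hP1⟩ : ∃ P1 : ℝ, P1 = (1 - pp) ^ (k - 1) := ⟨_, rfl⟩
  rw [← hP1] at hpow
  have pp1 : pp ≤ 1 / k := by
    rw [le_div_iff₀ hk0]
    linarith
  have hk6 : (1 : ℝ) / k ≤ 1 / 6 := one_div_le_one_div_of_le (by norm_num) hkR
  have hpp0 : 0 < 1 - pp := by linarith
  have P10 : 0 ≤ P1 := by rw [hP1]; positivity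
  have hGW : G * (1 - t - a) = W := by
    have : (1 - t) * (1 - q) = 1 - t - a := by rw [← hq]; ring
    rw [← this, hG, hW]
    field_simp
  have hta : 0 < 1 - t - a := by linarith
  have hPG : P1 ≤ 16 / 10 * (r - u) * G := by
    have h1 : P1 * (1 - t - a) ≤ P1 * (1 - a) := mul_le_mul_of_nonneg_left (by linarith) P10
    have h3 : 1115 / 1000 * W ≤ 16 / 10 * (8172 / 10000) * W := by linarith
    have h4 : 16 / 10 * (8172 / 10000) * W ≤ 16 / 10 * (r - u) * W :=
      mul_le_mul_of_nonneg_right (by linarith) hT0.le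
    have h5 : P1 * (1 - t - a) ≤ (16 / 10 * (r - u) * G) * (1 - t - a) := by
      calc P1 * (1 - t - a) ≤ 16 / 10 * (r - u) * W := by linarith
        _ = (16 / 10 * (r - u) * G) * (1 - t - a) := by rw [← hGW]; ring
    exact le_of_mul_le_mul_right h5 hta
  have hdl1 : dl ≤ 1402 / 10000 := by
    by_contra h
    push Not at h
    have hGw : w1 ≤ G := by
      rw [hG, le_div_iff₀ ht']
      have : 0 ≤ w1 * t := by positivity
      linarith
    have h1 : (8172 / 10000 : ℝ) * (1402 / 10000) ≤ (r - u) * dl :=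
      mul_le_mul (by linarith) h.le (by norm_num) ru
    have h2 : (8172 / 10000 : ℝ) * (1402 / 10000) * (3275 / 10000) ≤ (r - u) * dl * G :=
      mul_le_mul h1 (by linarith) (by norm_num) (by positivity)
    norm_num at h2
    linarith
  have hPu : P1 * u ≤ 16 / 10 * (W * X) := by
    have e : u = X * (1 - a) := by rw [hX]; field_simp
    calc P1 * u = P1 * (1 - a) * X := by rw [e]; ring
      _ ≤ 1115 / 1000 * W * X := mul_le_mul_of_nonneg_right hpow X0
      _ ≤ 16 / 10 * (W * X) := by linarith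
  have hms' : ms ≤ t + dl + u := by
    rw [hmse]
    have : (r - u) * (t + dl) ≤ 1 * (t + dl) :=
      mul_le_mul_of_nonneg_right (by linarith) (by linarith)
    linarith
  have hmain : s * (1 - pp) ^ (k - 1) - (1 - 1 / k) * ms * (1 - pp) ^ (k - 2) +
      (1 - b - s) * A / ms ≤ s * (G * (s - t)) := by
    have h1 := hD.mn
    rw [← hb] at h1
    have h2 : (s * (1 - pp) ^ (k - 1) - (1 - 1 / k) * ms * (1 - pp) ^ (k - 2) +
      (1 - b - s) * A / ms) * (ms * (1 - t)) ≤ (s * (G * (s - t))) * (ms * (1 - t)) := by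
      have e1 : (1 - b - s) * A / ms * (ms * (1 - t)) = (1 - b - s) * A * (1 - t) := by
        field_simp
      have e2 : (s * (G * (s - t))) * (ms * (1 - t)) = s * w1 * (s - t) * ms := by
        rw [hG]
        field_simp
      rw [e2, add_mul, e1]
      linarith
    exact le_of_mul_le_mul_right h2 (mul_pos m0 ht')
  have hmain' : s * P1 - ms * P1 + (1 - b - s) * A / ms ≤ s * (G * (s - t)) := by
    have hk2 : k - 1 = (k - 2) + 1 := by omega
    have h1 : (1 - 1 / k) * ms * (1 - pp) ^ (k - 2) ≤ ms * P1 := by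
      have e : P1 = (1 - pp) ^ (k - 2) * (1 - pp) := by rw [hP1, hk2, pow_succ]
      rw [e]
      have h2 : 0 ≤ ms * (1 - pp) ^ (k - 2) := by positivity
      calc (1 - 1 / k) * ms * (1 - pp) ^ (k - 2) = ms * (1 - pp) ^ (k - 2) * (1 - 1 / k) := by ring
        _ ≤ ms * (1 - pp) ^ (k - 2) * (1 - pp) := mul_le_mul_of_nonneg_left (by linarith) h2
        _ = _ := by ring
    rw [← hP1] at hmain
    linarith
  exact w1l_fin (by linarith) (by linarith) u0 t0 t1 dl0 hdl1 G0.le m0 m1 b1 ts sd hA0 P10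
    hms' hPu hPG hYA hmain' (by field_simp)

end Pool.Agent.Q182.XU
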