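import Pool.Agent.Q257.EM.EEL
import Pool.Agent.Q257.EM.TUP
import Pool.Agent.Q113.XU.Stm

/-! # Project XU (helper113): from the stability of the i.i.d. inequality to WIN (helper182) -/

set_option autoImplicit false

namespace Pool.Agent.Q182.XU

open Finset Pool.Agent.Q54.EM Pool.Agent.Q113.XU Pool.Agent.Q113.XM Pool.Agent.W593.IR

section

variable {ι : Type} [Fintype ι]

lemma EE_nonneg (p x : ι → ℝ) (hp : ∀ i, 0 ≤ p i) (n : ℕ) : ∀ f : ℝ → ℝ, (∀ t, 0 ≤ f t) →
    0 ≤ EE p x n f := by
  induction n with
  | zero => intro f hf; exact hf 0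
  | succ n ih =>
    intro f hf
    exact sum_nonneg fun i _ => mul_nonneg (hp i) (ih _ fun t => hf _)

/-- the mixed law: weights -/
noncomputable def wo (s : ℝ) (p : ι → ℝ) : Option ι → ℝ := fun o => o.elim s (fun i => (1 - s) * p i)

/-- the mixed law: values -/
noncomputable def vo (z : ℝ) (x : ι → ℝ) : Option ι → ℝ := fun o => o.elim z x

lemma EE_opt_ge (p x : ι → ℝ) (s z : ℝ) (hp : ∀ i, 0 ≤ p i) (s0 : 0 ≤ s) (s1 : s ≤ 1) (n : ℕ) :
    ∀ f : ℝ → ℝ, (∀ t, 0 ≤ f t) → (1 - s) ^ n * EE p x n f ≤ EE (wo s p) (vo z x) n f := by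
  have hw : ∀ o, 0 ≤ wo s p o := by
    intro o
    cases o with
    | none => exact s0
    | some i => exact mul_nonneg (by linarith) (hp i)
  induction n with
  | zero => intro f hf; simp [EE]
  | succ n ih =>
    intro f hf
    show (1 - s) ^ (n + 1) * ∑ i, p i * EE p x n (fun t => f (t + x i))
      ≤ ∑ o, wo s p o * EE (wo s p) (vo z x) n (fun t => f (t + vo z x o))
    rw [Fintype.sum_option]
    have h1 : 0 ≤ wo s p none * EE (wo s p) (vo z x) n (fun t => f (t + vo z x none)) :=
      mul_nonneg s0 (EE_nonneg _ _ hw n _ fun t => hf _)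
    have h2 : (1 - s) ^ (n + 1) * ∑ i, p i * EE p x n (fun t => f (t + x i)) ≤
        ∑ i, wo s p (some i) * EE (wo s p) (vo z x) n (fun t => f (t + vo z x (some i))) := by
      rw [mul_sum]
      refine sum_le_sum fun i _ => ?_
      show _ ≤ ((1 - s) * p i) * EE (wo s p) (vo z x) n (fun t => f (t + x i))
      calc (1 - s) ^ (n + 1) * (p i * EE p x n (fun t => f (t + x i)))
          = ((1 - s) * p i) * ((1 - s) ^ n * EE p x n (fun t => f (t + x i))) := by ring
        _ ≤ _ := mul_le_mul_of_nonneg_left (ih _ fun t => hf _)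
          (mul_nonneg (by linarith) (hp i))
    linarith

lemma EE_zero_of (p x : ι → ℝ) (hx : ∀ i, 0 ≤ x i) (n : ℕ) : ∀ f : ℝ → ℝ, (∀ t, 0 ≤ t → f t = 0) →
    EE p x n f = 0 := by
  induction n with
  | zero => intro f hf; exact hf 0 le_rfl
  | succ n ih =>
    intro f hf
    refine sum_eq_zero fun i _ => ?_
    rw [ih _ fun t ht => hf _ (add_nonneg ht (hx i)), mul_zero]

lemma EE_opt_top (p x : ι → ℝ) (s z : ℝ) (hz : 0 ≤ z) (hx : ∀ i, 0 ≤ x i) (n : ℕ) :
    ∀ f : ℝ → ℝ, (∀ t, z ≤ t → f t = 0) → EE (wo s p) (vo z x) n f = (1 - s) ^ n * EE p x n f := by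
  have hv : ∀ o, 0 ≤ vo z x o := by
    intro o
    cases o with
    | none => exact hz
    | some i => exact hx i
  induction n with
  | zero => intro f hf; simp [EE]
  | succ n ih =>
    intro f hf
    show ∑ o, wo s p o * EE (wo s p) (vo z x) n (fun t => f (t + vo z x o))
      = (1 - s) ^ (n + 1) * ∑ i, p i * EE p x n (fun t => f (t + x i))
    rw [Fintype.sum_option]
    have h1 : EE (wo s p) (vo z x) n (fun t => f (t + vo z x none)) = 0 :=
      EE_zero_of _ _ hv n _ fun t ht => hf _ (by
        show z ≤ t + z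
        linarith)
    rw [h1, mul_zero, zero_add, mul_sum]
    refine sum_congr rfl fun i _ => ?_
    show ((1 - s) * p i) * EE (wo s p) (vo z x) n (fun t => f (t + x i)) = _
    rw [ih (fun t => f (t + x i)) fun t ht => hf _ (by have := hx i; linarith)]
    ring

lemma PR_eq (p x : ι → ℝ) (hp : ∑ i, p i = 1) (n : ℕ) (y : ℝ) :
    PR p x n y = 1 - EE p x n (fun s => if y ≤ s then 1 else 0) := by
  obtain ⟨-, h2, -, -, h5, -⟩ := Pool.Agent.Q257.EM.eel ι p x n
  have h3 := h2 (fun _ => 1) (fun s => if y ≤ s then 1 else 0)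
  rw [h5 hp 1] at h3
  rw [← h3]
  unfold PR
  congr 1
  funext s
  by_cases h : s < y
  · simp [h, not_le.2 h]
  · simp [h, not_lt.1 h]

lemma UP_trunc (p y : ι → ℝ) (hy : ∀ i, 0 ≤ y i) (k : ℕ) (hk : 1 ≤ k) :
    EE p (fun i => min (k * y i) k) k (fun s => if (k : ℝ) ≤ s then 1 else 0) = UP p y k 1 := by
  have hk0 : (0 : ℝ) < k := by exact_mod_cast hk
  unfold UP
  rw [Pool.Agent.Q257.EM.tup, Pool.Agent.Q257.EM.tup]
  unfold TE
  refine sum_congr rfl fun v _ => ?_
  congr 1
  have hiff : ((k : ℝ) ≤ ∑ i, min ((k : ℝ) * y (v i)) k) ↔ (1 : ℝ) ≤ ∑ i, y (v i) := by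
    constructor
    · intro h
      have h1 : ∑ i, min ((k : ℝ) * y (v i)) k ≤ k * ∑ i, y (v i) := by
        rw [mul_sum]
        exact sum_le_sum fun i _ => min_le_left _ _
      have h2 : (k : ℝ) * 1 ≤ k * ∑ i, y (v i) := by linarith
      exact le_of_mul_le_mul_left h2 hk0
    · intro h
      by_cases hall : ∀ i, (k : ℝ) * y (v i) ≤ k
      · have h1 : ∑ i, min ((k : ℝ) * y (v i)) k = k * ∑ i, y (v i) := by
          rw [mul_sum]
          exact sum_congr rfl fun i _ => min_eq_left (hall i)
        rw [h1]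
        have := mul_le_mul_of_nonneg_left h hk0.le
        linarith
      · push Not at hall
        obtain ⟨i, hi⟩ := hall
        calc (k : ℝ) = min ((k : ℝ) * y (v i)) k := (min_eq_right hi.le).symm
          _ ≤ ∑ i, min ((k : ℝ) * y (v i)) k :=
            single_le_sum (f := fun i => min ((k : ℝ) * y (v i)) k)
              (fun j _ => le_min (mul_nonneg hk0.le (hy _)) hk0.le) (mem_univ i)
  simp only []
  by_cases h : (1 : ℝ) ≤ ∑ i, y (v i)
  · rw [if_pos h, if_pos (hiff.2 h)]
  · rw [if_neg h, if_neg fun h' => h (hiff.1 h')]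

end

theorem t_WNI : S_WNI := by
  intro k hk hL hU c hc γ hγ
  obtain ⟨c0, c1, c2⟩ := hc
  have hkR : (6 : ℝ) ≤ k := by exact_mod_cast hk
  have hk0 : (0 : ℝ) < k := by linarith
  obtain ⟨r, hr⟩ : ∃ r : ℝ, r = k * c := ⟨_, rfl⟩
  have r0 : 0 < r := by rw [hr]; positivity
  have r1 : r < 1 := by rw [hr]; exact c1
  have hrk : r / k = c := by rw [hr]; field_simp
  have hRC : RC k r := ⟨r0, r1, by rw [hrk, hr]; exact c2⟩
  obtain ⟨g, hg⟩ : ∃ g : ℝ, g = min (k * γ) 1 := ⟨_, rfl⟩
  have g0 : 0 < g := by rw [hg]; exact lt_min (by positivity) one_pos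
  obtain ⟨γ', hγ'⟩ : ∃ γ' : ℝ, γ' = g * γ / 2 := ⟨_, rfl⟩
  have γ0' : 0 < γ' := by rw [hγ']; positivity
  obtain ⟨η0, hη0, hUNI⟩ := hU k r γ' hk hRC γ0'
  obtain ⟨T, hT⟩ : ∃ T : ℝ, T = 1 - r ^ k := ⟨_, rfl⟩
  have T0 : 0 < T := by
    rw [hT]
    have := pow_lt_one₀ r0.le r1 (show k ≠ 0 by omega)
    linarith
  have hmv : mv k c = r ^ k := by
    unfold mv
    rw [← hr]
    have : 1 - (1 - c) ^ k = r ^ k := by
      rw [← hr] at c2
      linarith
    rw [this, max_self]
  obtain ⟨η, hη⟩ : ∃ η : ℝ, η = min (min (η0 / (1 + k * (k / r))) (r / (2 * k))) (T / 2) :=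
    ⟨_, rfl⟩
  have hden : 0 < 1 + k * (k / r) := by positivity
  have ηpos : 0 < η := by
    rw [hη]
    exact lt_min (lt_min (by positivity) (by positivity)) (by positivity)
  have η1 : η * (1 + k * (k / r)) ≤ η0 := by
    have : η ≤ η0 / (1 + k * (k / r)) := by
      rw [hη]
      exact (min_le_left _ _).trans (min_le_left _ _)
    rwa [le_div_iff₀ hden] at this
  have η2 : k * η / r ≤ 1 / 2 := by
    have : η ≤ r / (2 * k) := by
      rw [hη]
      exact (min_le_left _ _).trans (min_le_right _ _)
    rw [le_div_iff₀ (by positivity)] at this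
    rw [div_le_iff₀ r0]
    linarith
  have η3 : η ≤ T / 2 := by
    rw [hη]
    exact min_le_right _ _
  refine ⟨η, ηpos, fun ι _ p y hW hm hUP => ?_⟩
  obtain ⟨p0, p1, y0⟩ := hW
  obtain ⟨x, hx⟩ : ∃ x : ι → ℝ, x = fun i => min ((k : ℝ) * y i) k := ⟨_, rfl⟩
  have x0 : ∀ i, 0 ≤ x i := fun i => by
    rw [hx]
    exact le_min (mul_nonneg hk0.le (y0 i)) hk0.le
  have xk : ∀ i, x i ≤ k := fun i => by
    rw [hx]
    exact min_le_right _ _
  obtain ⟨m, hm'⟩ : ∃ m : ℝ, m = mu p x := ⟨_, rfl⟩
  have m0 : 0 ≤ m := by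
    rw [hm']
    exact sum_nonneg fun i _ => mul_nonneg (p0 i) (x0 i)
  have mle : m ≤ r + k * η := by
    have h1 : m ≤ k * mu p y := by
      rw [hm']
      unfold mu
      rw [mul_sum]
      refine sum_le_sum fun i _ => ?_
      have : x i ≤ k * y i := by rw [hx]; exact min_le_left _ _
      calc p i * x i ≤ p i * (k * y i) := mul_le_mul_of_nonneg_left this (p0 i)
        _ = k * (p i * y i) := by ring
    have h2 := mul_le_mul_of_nonneg_left hm hk0.le
    rw [hr]
    linarith
  have hPR : PR p x k k = 1 - UP p y k 1 := by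
    rw [PR_eq p x p1, hx, UP_trunc p y y0 k (by omega)]
  have hPRle : PR p x k k ≤ T + η := by
    rw [hPR, hT, hr]
    linarith
  have hPR0 : 0 ≤ PR p x k k := EE_nonneg p x p0 k _ fun t => by split_ifs <;> norm_num
  -- the mixed law
  have main : ∃ s z : ℝ, 0 ≤ s ∧ s ≤ 1 / 2 ∧ 0 ≤ z ∧ z ≤ k ∧ min z (k - z) = 0 ∧
      mu (wo s p) (vo z x) = r ∧ PR (wo s p) (vo z x) k k ≤ 1 - r ^ k + η0 := by
    have hmu : ∀ s z : ℝ, mu (wo s p) (vo z x) = s * z + (1 - s) * m := by
      intro s z
      rw [hm']
      unfold mu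
      rw [Fintype.sum_option, mul_sum]
      congr 1
      refine sum_congr rfl fun i _ => ?_
      show ((1 - s) * p i) * x i = _
      ring
    have hsum : ∀ s : ℝ, ∑ o, wo s p o = 1 := by
      intro s
      rw [Fintype.sum_option]
      show s + ∑ i, (1 - s) * p i = 1
      rw [← mul_sum, p1]
      ring
    rcases lt_or_ge r m with h | h
    · -- the mean is too large
      have mpos : 0 < m := r0.trans h
      obtain ⟨s, hs⟩ : ∃ s : ℝ, s = (m - r) / m := ⟨_, rfl⟩
      have s0 : 0 ≤ s := by rw [hs]; exact div_nonneg (by linarith) mpos.le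
      have s1 : s ≤ k * η / r := by
        rw [hs]
        calc (m - r) / m ≤ (m - r) / r := div_le_div_of_nonneg_left (by linarith) r0 h.le
          _ ≤ k * η / r := div_le_div_of_nonneg_right (by linarith) r0.le
      have s2 : s ≤ 1 / 2 := s1.trans η2
      have hsm : (1 - s) * m = r := by
        rw [hs]
        field_simp
        ring
      refine ⟨s, 0, s0, s2, le_rfl, hk0.le, by simp [hk0.le], ?_, ?_⟩
      · rw [hmu, hsm]
        ring
      · rw [PR_eq _ _ (hsum s)]
        have h1 := EE_opt_ge p x s 0 p0 s0 (by linarith) k (fun t => if (k : ℝ) ≤ t then 1 else 0)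
          (fun t => by split_ifs <;> norm_num)
        have h2 : EE p x k (fun t => if (k : ℝ) ≤ t then 1 else 0) = UP p y k 1 := by
          rw [hx]
          exact UP_trunc p y y0 k (by omega)
        rw [h2] at h1
        have h3 : 1 - k * s ≤ (1 - s) ^ k := by
          have := one_add_mul_le_pow (show (-2 : ℝ) ≤ -s by linarith) k
          rw [show (1 + -s : ℝ) = 1 - s by ring] at this
          linarith
        have hUP1 : UP p y k 1 ≤ 1 := by
          rw [hPR] at hPR0
          linarith
        have hUP0 : 0 ≤ UP p y k 1 := EE_nonneg p y p0 k _ fun t => by split_ifs <;> norm_num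
        have h4 : UP p y k 1 - k * s ≤ (1 - s) ^ k * UP p y k 1 := by
          have h5 : (1 - k * s) * UP p y k 1 ≤ (1 - s) ^ k * UP p y k 1 :=
            mul_le_mul_of_nonneg_right h3 hUP0
          have h6 : k * s * UP p y k 1 ≤ k * s := mul_le_of_le_one_right (by positivity) hUP1
          linarith
        have h7 : k * s ≤ k * (k * η / r) := mul_le_mul_of_nonneg_left s1 hk0.le
        have h8 : η * (1 + k * (k / r)) = η + k * (k * η / r) := by ring
        have h9 : 1 - UP p y k 1 ≤ T + η := by rw [← hPR]; exact hPRle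
        rw [← hT]
        linarith
    · -- the mean is too small
      have hkm : 0 < k - m := by linarith
      obtain ⟨s, hs⟩ : ∃ s : ℝ, s = (r - m) / (k - m) := ⟨_, rfl⟩
      have s0 : 0 ≤ s := by rw [hs]; exact div_nonneg (by linarith) hkm.le
      have s1 : s ≤ 1 := by
        rw [hs, div_le_one hkm]
        linarith
      have hsm : s * k + (1 - s) * m = r := by
        rw [hs]
        field_simp
        ring
      have hPRo : PR (wo s p) (vo (k : ℝ) x) k k = (1 - s) ^ k * PR p x k k := by
        unfold PR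
        exact EE_opt_top p x s k hk0.le x0 k _ fun t ht => by rw [if_neg (not_lt.2 ht)]
      have hpow1 : (1 - s) ^ k ≤ 1 := pow_le_one₀ (by linarith) (by linarith)
      have hpow0 : 0 ≤ (1 - s) ^ k := pow_nonneg (by linarith) _
      have hTle : T ≤ PR (wo s p) (vo (k : ℝ) x) k k := by
        rw [PR_eq _ _ (hsum s), hT, ← hmv]
        have hw0 : ∀ o, 0 ≤ wo s p o := by
          intro o
          cases o with
          | none => exact s0
          | some i => exact mul_nonneg (by linarith) (p0 i)
        have hv0 : ∀ o, 0 ≤ vo (k : ℝ) x o := by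
          intro o
          cases o with
          | none => exact hk0.le
          | some i => exact x0 i
        have hvk : ∀ o, vo (k : ℝ) x o ≤ k := by
          intro o
          cases o with
          | none => exact le_rfl
          | some i => exact xk i
        have h1 := hL (Option ι) (wo s p) (fun o => vo (k : ℝ) x o / k) c
          ⟨hw0, hsum s, fun o => div_nonneg (hv0 o) hk0.le⟩ (by
            have h2 : mu (wo s p) (fun o => vo (k : ℝ) x o / k) = mu (wo s p) (vo (k : ℝ) x) / k := by
              unfold mu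
              rw [sum_div]
              refine sum_congr rfl fun o _ => ?_
              ring
            rw [h2, hmu, hsm, hrk]) c0.le c1.le
        have h3 := UP_trunc (wo s p) (fun o => vo (k : ℝ) x o / k)
          (fun o => div_nonneg (hv0 o) hk0.le) k (by omega)
        have h4 : (fun o => min ((k : ℝ) * (vo (k : ℝ) x o / k)) k) = vo (k : ℝ) x := by
          funext o
          rw [mul_div_cancel₀ _ hk0.ne']
          exact min_eq_left (hvk o)
        rw [h4] at h3
        rw [h3]
        linarith
      have hs2 : s ≤ 1 / 2 := by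
        rw [hPRo] at hTle
        have h1 : T ≤ (1 - s) ^ k * (T + η) :=
          hTle.trans (mul_le_mul_of_nonneg_left hPRle hpow0)
        have h2 : (1 - s) ^ k ≤ 1 - s := by
          calc (1 - s) ^ k ≤ (1 - s) ^ 1 :=
                pow_le_pow_of_le_one (by linarith) (by linarith) (by omega)
            _ = 1 - s := pow_one _
        have h3 : T ≤ (1 - s) * (T + η) :=
          h1.trans (mul_le_mul_of_nonneg_right h2 (by linarith))
        by_contra hcon
        push Not at hcon
        have h4 : (1 - s) * (T + η) ≤ (1 - s) * (T + T / 2) :=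
          mul_le_mul_of_nonneg_left (by linarith) (by linarith)
        nlinarith
      refine ⟨s, k, s0, hs2, hk0.le, le_rfl, by simp [hk0.le], ?_, ?_⟩
      · rw [hmu, hsm]
      · rw [hPRo, ← hT]
        have h1 : (1 - s) ^ k * PR p x k k ≤ PR p x k k := mul_le_of_le_one_left hPR0 hpow1
        have h2 : η ≤ η0 := by
          refine le_trans ?_ η1
          exact le_mul_of_one_le_right ηpos.le (by
            have : 0 ≤ (k : ℝ) * (k / r) := by positivity
            linarith)
        linarith
  obtain ⟨s, z, s0, s2, z0, zk, hzk, hmu, hPRm⟩ := main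
  have hFz : Fz k r (wo s p) (vo z x) := by
    refine ⟨?_, ?_, ?_, ?_, hmu⟩
    · intro o
      cases o with
      | none => exact s0
      | some i => exact mul_nonneg (by linarith) (p0 i)
    · rw [Fintype.sum_option]
      show s + ∑ i, (1 - s) * p i = 1
      rw [← mul_sum, p1]
      ring
    · intro o
      cases o with
      | none => exact z0
      | some i => exact x0 i
    · intro o
      cases o with
      | none => exact zk
      | some i => exact xk i
  have hdS : dS k (wo s p) (vo z x) = (1 - s) * dS k p x := by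
    unfold dS
    rw [Fintype.sum_option, mul_sum]
    show s * min z (k - z) + _ = _
    rw [hzk, mul_zero, zero_add]
    refine sum_congr rfl fun i _ => ?_
    show ((1 - s) * p i) * min (x i) (k - x i) = _
    ring
  have hdC : (1 - s) * dC p x ≤ dC (wo s p) (vo z x) := by
    unfold dC
    rw [Fintype.sum_option, mul_sum]
    have h1 : 0 ≤ wo s p none * min (vo z x none) |vo z x none - 1| :=
      mul_nonneg s0 (le_min z0 (abs_nonneg _))
    have h2 : ∑ i, (1 - s) * (p i * min (x i) |x i - 1|) =
        ∑ i, wo s p (some i) * min (vo z x (some i)) |vo z x (some i) - 1| := by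
      refine sum_congr rfl fun i _ => ?_
      show _ = ((1 - s) * p i) * min (x i) |x i - 1|
      ring
    linarith
  have hkey : ∀ d D : ℝ, 0 ≤ D → (1 - s) * D ≤ γ' → g * d ≤ D → d ≤ γ := by
    intro d D hD0 h1 h2
    have h3 : 1 / 2 * D ≤ (1 - s) * D := mul_le_mul_of_nonneg_right (by linarith) hD0
    have h4 : g * d ≤ g * γ := by
      rw [hγ'] at h1
      linarith
    exact le_of_mul_le_mul_left h4 g0
  have gk : g ≤ k * γ := by rw [hg]; exact min_le_left _ _
  have g1 : g ≤ 1 := by rw [hg]; exact min_le_right _ _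
  rcases hUNI (Option ι) (wo s p) (vo z x) hFz hPRm with h | h
  · left
    rw [hdS] at h
    refine hkey _ (dS k p x) (sum_nonneg fun i _ => mul_nonneg (p0 i)
      (le_min (x0 i) (by have := xk i; linarith))) h ?_
    unfold dS
    rw [mul_sum]
    refine sum_le_sum fun i _ => ?_
    split_ifs with hi
    · obtain ⟨a1, a2⟩ := hi
      have e : x i = k * y i := by
        rw [hx]
        refine min_eq_left ?_
        have : y i ≤ 1 := by linarith
        calc (k : ℝ) * y i ≤ k * 1 := mul_le_mul_of_nonneg_left this hk0.le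
          _ = k := mul_one _
      have h1 : g ≤ min (x i) (k - x i) := by
        rw [e]
        refine le_min ?_ ?_
        · exact gk.trans (mul_le_mul_of_nonneg_left a1.le hk0.le)
        · have := mul_le_mul_of_nonneg_left (show γ ≤ 1 - y i by linarith) hk0.le
          linarith
      calc g * p i = p i * g := mul_comm _ _
        _ ≤ _ := mul_le_mul_of_nonneg_left h1 (p0 i)
    · rw [mul_zero]
      exact mul_nonneg (p0 i) (le_min (x0 i) (by have := xk i; linarith))
  · right
    refine hkey _ (dC p x) (sum_nonneg fun i _ => mul_nonneg (p0 i)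
      (le_min (x0 i) (abs_nonneg _))) (hdC.trans h) ?_
    unfold dC
    rw [mul_sum]
    refine sum_le_sum fun i _ => ?_
    split_ifs with hi
    · obtain ⟨a1, a2⟩ := hi
      have h1 : g ≤ min (x i) |x i - 1| := by
        rcases le_or_gt (y i) 1 with h2 | h2
        · have e : x i = k * y i := by
            rw [hx]
            refine min_eq_left ?_
            calc (k : ℝ) * y i ≤ k * 1 := mul_le_mul_of_nonneg_left h2 hk0.le
              _ = k := mul_one _
          rw [e]
          refine le_min ?_ ?_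
          · exact gk.trans (mul_le_mul_of_nonneg_left a1.le hk0.le)
          · have h3 : (k : ℝ) * y i - 1 = k * (y i - 1 / k) := by field_simp
            rw [h3, abs_mul, abs_of_pos hk0]
            exact gk.trans (mul_le_mul_of_nonneg_left a2.le hk0.le)
        · have e : x i = k := by
            rw [hx]
            refine min_eq_right ?_
            calc (k : ℝ) = k * 1 := (mul_one _).symm
              _ ≤ k * y i := mul_le_mul_of_nonneg_left h2.le hk0.le
          rw [e, abs_of_pos (by linarith)]
          exact le_min (by linarith) (by linarith)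
      calc g * p i = p i * g := mul_comm _ _
        _ ≤ _ := mul_le_mul_of_nonneg_left h1 (p0 i)
    · rw [mul_zero]
      exact mul_nonneg (p0 i) (le_min (x0 i) (abs_nonneg _))

end Pool.Agent.Q182.XU
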